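import Pool.Agent.helper81.CW.Spec2

/-!
# Project cl (MP_447e26_gt): the exponential rate of `τ_d` exists

**Theorem** (CFIN). `τ_d^(1/d)` and `minVol_d^(1/d)` converge to the same number `β`, `√3 - 1 ≤ β ≤ 0.9`, and
`β^d ≤ 8 √d minVol_d` for every `d`; `minVol_(d+e) ≤ 64 √(de) minVol_d minVol_e`.

Idea. `far C x` = largest distance of `x` from a point of `C`; `C = {far C ≤ 1}` for a body of constant width `1`. For
`K = {(√α u, √β v)}`, `u ∈ C₁`, `v ∈ C₂`, `α + β = 1`, of diameter `≤ 1`, every body `C` of constant width `1` containing `K` satisfies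
`far C ≥ far K`, `far K (x,y)² = α far C₁ (x/√α)² + β far C₂ (y/√β)²`, so `II C T = ∫ exp(T (1 - far C²))` is at most
`√α^d √β^e II C₁ (α T) II C₂ (β T)`. And `vol C ≤ II C t` for all `t ≥ 0`, `II C t ≤ 8 √d vol C` for a suitable `t ≤ 2d`, since
`ρ ↦ vol {far C ≤ ρ}` is log-concave (Prekopa-Leindler).

Every module proves one statement: `theorem XX (h : YY_stmt) ... : XX_stmt`, file `Pool/Agent/<seat>/CL/XX.lean`,
`import Pool.Agent.helper71.CL.Spec`, namespace `Pool.Agent.CL`, `open Pool.Agent.helper81.CW`; auxiliary lemmas prefixed `XX_`; other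
statements of this file and of helper81/CW/Spec2.lean (J1_stmt, J2_stmt, J3_stmt are proved in helper11/CW/J1.lean, helper4/CW/J2.lean,
helper1/CW/J3.lean) may be hypotheses. No sorry, no double quotes in the file.
-/

set_option autoImplicit false

open MeasureTheory Set Filter Topology
open scoped ENNReal
open Pool.Agent.helper81.CW

noncomputable section

namespace Pool.Agent.CL

/-! ### Definitions -/

/-- The largest distance of `x` from a point of `C`. -/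
def far {n : ℕ} (C : Set (E n)) (x : E n) : ℝ := sSup ((fun c => ‖x - c‖) '' C)

/-- The integral of `exp (t (1 - far C ^ 2))`. -/
def II {n : ℕ} (C : Set (E n)) (t : ℝ) : ℝ≥0∞ :=
  ∫⁻ x : E n, ENNReal.ofReal (Real.exp (t * (1 - far C x ^ 2)))

/-- The volume of `{far C ≤ ρ}`. -/
def VV {n : ℕ} (C : Set (E n)) (ρ : ℝ) : ℝ≥0∞ := volume {x : E n | far C x ≤ ρ}

/-- First coordinates. -/
def p1 (d e : ℕ) (x : E (d + e)) : E d := WithLp.toLp 2 fun i => x (Fin.castAdd e i)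

/-- Last coordinates. -/
def p2 (d e : ℕ) (x : E (d + e)) : E e := WithLp.toLp 2 fun i => x (Fin.natAdd d i)

/-- The point with given first and last coordinates. -/
def gl (d e : ℕ) (x : E d) (y : E e) : E (d + e) :=
  WithLp.toLp 2 (Fin.append (fun i => x i) (fun i => y i))

/-- The set `{(√α u, √β v)}`. -/
def KK (d e : ℕ) (α β : ℝ) (C₁ : Set (E d)) (C₂ : Set (E e)) : Set (E (d + e)) :=
  {x | ∃ u ∈ C₁, ∃ v ∈ C₂, p1 d e x = √α • u ∧ p2 d e x = √β • v}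

/-! ### The function `far` and completions -/

/-- **FAR** (short, 70 lines). Basic facts. Proof: `C` is compact, so the supremum is attained; triangle inequality. -/
def FAR_stmt : Prop := ∀ (n : ℕ) (C : Set (E n)), IsCompact C → C.Nonempty → ∀ x y : E n,
  (∀ c ∈ C, ‖x - c‖ ≤ far C x) ∧ (∃ c ∈ C, ‖x - c‖ = far C x) ∧ |far C x - far C y| ≤ ‖x - y‖ ∧
    ∀ a b : ℝ, 0 ≤ a → 0 ≤ b → a + b = 1 → far C (a • x + b • y) ≤ a * far C x + b * far C y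

/-- **NCN** (medium, 120 lines). Normal directions of an intersection of unit balls.
Let `W = {w | ∀ k ∈ K, ‖w - k‖ ≤ 1}`; `y ∈ W` maximises `⟪u, ·⟫` on `W`. Claim: `‖y - u - w‖ ≤ 1` for all `w ∈ W`.
Proof. `A = {y - k | k ∈ K, ‖y - k‖ = 1}` is compact, so `S = convexHull ℝ A` is compact (finite dimension). Let `R = {t u | t ≥ 0}`.
(1) `R` and `S` meet: `s = t u ∈ S`. For `w ∈ W`, `X = y - w`: for `a = y - k ∈ A`, `‖X - a‖ = ‖w - k‖ ≤ 1` gives `⟪X, a⟫ ≥ ‖X‖²/2`, hence this holds for all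
elements of `S`: `t ⟪X, u⟫ ≥ ‖X‖²/2`; `t = ‖s‖ ≤ 1` and `⟪X, u⟫ ≥ 0` as `y` is a maximiser; so `⟪X, u⟫ ≥ ‖X‖²/2` and
`‖X - u‖² = ‖X‖² - 2 ⟪X, u⟫ + 1 ≤ 1`; this is the claim as `y - u - w = X - u`.
(2) Otherwise separate the compact convex `S` and the closed convex `R` strictly (`geometric_hahn_banach_compact_closed`; if `S` is empty take
`e' = u`): there are `e` and `c` with `⟪e, s⟫ < c < ⟪e, t u⟫` for `s ∈ S`, `t ≥ 0`; `t = 0` gives `c < 0`, large `t` gives `⟪e, u⟫ ≥ 0`. With `e' = e + η u`,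
`0 < η < |c|`: `⟪e', a⟫ < 0` for `a ∈ A` and `⟪e', u⟫ > 0`. Claim: `y + ε e' ∈ W` for small `ε > 0`, which contradicts the maximality of `y`. Otherwise there are
`ε_j → 0` (positive) and `k_j ∈ K` with `‖y - k_j + ε_j e'‖ > 1`; pass to a limit `k ∈ K` of a subsequence: `‖y - k‖ ≥ 1`, so `y - k ∈ A`; and
`1 < ‖y - k_j‖² + 2 ε_j ⟪e', y - k_j⟫ + ε_j² ‖e'‖² ≤ 1 + 2 ε_j ⟪e', y - k_j⟫ + ε_j² ‖e'‖²` gives in the limit `⟪e', y - k⟫ ≥ 0`: a contradiction. -/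
def NCN_stmt : Prop := ∀ (n : ℕ) (K : Set (E n)) (u y : E n), IsCompact K → ‖u‖ = 1 →
  (∀ k ∈ K, ‖y - k‖ ≤ 1) →
  (∀ w : E n, (∀ k ∈ K, ‖w - k‖ ≤ 1) → inner ℝ u w ≤ inner ℝ u y) →
  ∀ w : E n, (∀ k ∈ K, ‖w - k‖ ≤ 1) → ‖y - u - w‖ ≤ 1

/-- **MAE** (medium, 120 lines; NCN). A completion (Maehara). Proof. `W = {w | ∀ k ∈ K, ‖w - k‖ ≤ 1}`, `T = {x | ∀ w ∈ W, ‖x - w‖ ≤ 1}` are compact and
convex, `K ⊆ W` (diameter), `K ⊆ T ⊆ W`. For a unit vector `u`: `supp W u + supp T (-u) = 1`: `⟪u, w⟫ + ⟪-u, t⟫ ≤ ‖w - t‖ ≤ 1`, and if `y ∈ W` maximises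
`⟪u, ·⟫` then `y - u ∈ T` by NCN and `⟪u, y⟫ + ⟪-u, y - u⟫ = 1`. `C = {(1/2) • (w + t)}`: compact, convex, `supp C u = (supp W u + supp T u)/2`, so
`supp C u + supp C (-u) = 1`. `k = (k + k)/2 ∈ C`, and `C ⊆ W` as `T ⊆ W` and `W` is convex. -/
def MAE_stmt : Prop := ∀ (n : ℕ) (K : Set (E n)), IsCompact K → K.Nonempty →
  (∀ x ∈ K, ∀ y ∈ K, ‖x - y‖ ≤ 1) →
  ∃ C : Set (E n), ConstWidth C 1 ∧ K ⊆ C ∧ ∀ x ∈ C, ∀ k ∈ K, ‖x - k‖ ≤ 1

/-! ### Products -/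

/-- **PRJ** (short, 60 lines). The maps `p1`, `p2`, `gl`. -/
def PRJ_stmt : Prop := ∀ d e : ℕ,
  (∀ (x : E d) (y : E e), p1 d e (gl d e x y) = x ∧ p2 d e (gl d e x y) = y) ∧
  (∀ x : E (d + e), gl d e (p1 d e x) (p2 d e x) = x ∧ ‖x‖ ^ 2 = ‖p1 d e x‖ ^ 2 + ‖p2 d e x‖ ^ 2) ∧
  (∀ x y : E (d + e), p1 d e (x - y) = p1 d e x - p1 d e y ∧ p2 d e (x - y) = p2 d e x - p2 d e y) ∧
  Continuous (p1 d e) ∧ Continuous (p2 d e) ∧
  Continuous (fun z : E d × E e => gl d e z.1 z.2)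

/-- **PIN** (medium, 80 lines). Tonelli. Proof: the map `x ↦ (p1 x, p2 x)` from `E (d+e)` to `E d × E e` is measure preserving: compose
`EuclideanSpace.volume_preserving_symm_measurableEquiv_toLp` (or `PiLp.volume_preserving_ofLp`, `PiLp.volume_preserving_toLp`),
`volume_measurePreserving_piCongrLeft` for `finSumFinEquiv` and `volume_preserving_sumPiEquivProdPi`. Then `lintegral_prod_mul`. -/
def PIN_stmt : Prop := ∀ (d e : ℕ) (f : E d → ℝ≥0∞) (g : E e → ℝ≥0∞), Measurable f → Measurable g →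
  ∫⁻ x : E (d + e), f (p1 d e x) * g (p2 d e x) = (∫⁻ x, f x) * ∫⁻ y, g y

/-- **SCA** (short, 30 lines). Scaling (`Measure.addHaar_smul` / `lintegral_comp_smul` or `Measure.map_addHaar_smul`). -/
def SCA_stmt : Prop := ∀ (n : ℕ) (f : E n → ℝ≥0∞) (s : ℝ), Measurable f → 0 < s →
  ∫⁻ x : E n, f (s⁻¹ • x) = ENNReal.ofReal (s ^ n) * ∫⁻ x, f x

/-- **KFA** (medium, 90 lines; FAR, PRJ). The set `KK`. Proof. `KK` is the image of `C₁ ×ˢ C₂` under `(u,v) ↦ gl (√α u) (√β v)`, so compact. Diameter: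
`‖x - y‖² = α ‖u - u'‖² + β ‖v - v'‖² ≤ α + β = 1`. `‖x - k‖² = ‖p1 x - √α u‖² + ‖p2 x - √β v‖² = α ‖p1 x/√α - u‖² + β ‖p2 x/√β - v‖²`, and `u`, `v` are independent. -/
def KFA_stmt : Prop := ∀ (d e : ℕ) (C₁ : Set (E d)) (C₂ : Set (E e)) (α β : ℝ),
  IsCompact C₁ → C₁.Nonempty → IsCompact C₂ → C₂.Nonempty → (∀ x ∈ C₁, ∀ y ∈ C₁, ‖x - y‖ ≤ 1) →
  (∀ x ∈ C₂, ∀ y ∈ C₂, ‖x - y‖ ≤ 1) → 0 < α → 0 < β → α + β = 1 →
  IsCompact (KK d e α β C₁ C₂) ∧ (KK d e α β C₁ C₂).Nonempty ∧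
    (∀ x ∈ KK d e α β C₁ C₂, ∀ y ∈ KK d e α β C₁ C₂, ‖x - y‖ ≤ 1) ∧
    ∀ x : E (d + e), far (KK d e α β C₁ C₂) x ^ 2 =
      α * far C₁ ((√α)⁻¹ • p1 d e x) ^ 2 + β * far C₂ ((√β)⁻¹ • p2 d e x) ^ 2

/-- **PRD** (medium, 90 lines; FAR, MAE, PIN, SCA, KFA, J2). The product inequality. Proof. `C` from MAE for `K = KK d e α β C₁ C₂` (J2: the `C_i` have diameter `≤ 1`).
`K ⊆ C`, so `0 ≤ far K x ≤ far C x`, and for `T ≥ 0`: `exp (T (1 - far C x²)) ≤ exp (T (1 - far K x²))`, which by KFA and `α + β = 1` is the product of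
`exp (T α (1 - far C₁ (p1 x/√α)²))` and `exp (T β (1 - far C₂ (p2 x/√β)²))`. PIN and SCA (with `s = √α`, `√β`). -/
def PRD_stmt : Prop := ∀ (d e : ℕ) (C₁ : Set (E d)) (C₂ : Set (E e)) (α β : ℝ),
  ConstWidth C₁ 1 → ConstWidth C₂ 1 → 0 < α → 0 < β → α + β = 1 →
  ∃ C : Set (E (d + e)), ConstWidth C 1 ∧ ∀ T : ℝ, 0 ≤ T →
    II C T ≤ ENNReal.ofReal (√α ^ d * √β ^ e) * (II C₁ (T * α) * II C₂ (T * β))

/-- **MFO** (medium, 80 lines; PRD). The `m`-fold product. Proof. Induction on `m`. `m = 1`: `C' = C`. Step: PRD for `(C'_m, C)` with `α = m/(m+1)`, `β = 1/(m+1)`,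
`T = (m+1) t`: `T α = m t`, `T β = t`, and `√α^(md) √β^d / √m^(md) = 1/√(m+1)^((m+1)d)`. -/
def MFO_stmt : Prop := ∀ (d : ℕ) (C : Set (E d)) (t : ℝ), ConstWidth C 1 → 0 < t →
  ∀ m : ℕ, 1 ≤ m → ∀ n : ℕ, n = m * d → ∃ C' : Set (E n), ConstWidth C' 1 ∧
    II C' (m * t) ≤ ENNReal.ofReal (1 / √(m : ℝ) ^ (m * d)) * II C t ^ m

/-! ### The integral and the volume -/

/-- **VLE** (short, 30 lines; FAR, J2). Proof. On `C` we have `far C x ≤ 1` (J2), so the integrand is `≥ 1` there. -/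
def VLE_stmt : Prop := ∀ (n : ℕ) (C : Set (E n)) (t : ℝ), ConstWidth C 1 → 0 ≤ t → volume C ≤ II C t

/-- **VON** (short, 40 lines; FAR, J2). `{far C ≤ 1} = C` (J2), of positive finite volume (it contains a ball: for `z` with `far C z ≤ r < 1`, J1, the ball of
radius `1 - r` about `z`). `VV` is finite as `{far C ≤ ρ}` is bounded. -/
def VON_stmt : Prop := ∀ (n : ℕ) (C : Set (E n)), ConstWidth C 1 →
  VV C 1 = volume C ∧ 0 < volume C ∧ ∀ ρ : ℝ, VV C ρ < ∞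

/-- **LGC** (medium, 70 lines; FAR). Log-concavity. Proof. `Pool.Agent.helper96.prekopa_leindler` (Pool/Agent/helper96/PL2.lean) with the indicators of the three
sublevel sets, as in Pool/Agent/helper64/CW/G6.lean; `far C` is continuous and convex. -/
def LGC_stmt : Prop := ∀ (n : ℕ) (C : Set (E n)) (ρ σ l : ℝ), IsCompact C → C.Nonempty → 0 < l → l < 1 →
  VV C ρ ^ l * VV C σ ^ (1 - l) ≤ VV C (l * ρ + (1 - l) * σ)

/-- **GRO** (medium, 80 lines; FAR, J1, J2). Growth. Proof. J1: `z` with `far C z ≤ r`, `r = √(1/2)`. For `ρ > 1` let `l = (1-r)/(ρ-r) ∈ (0,1)`. If `far C x ≤ ρ` then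
`far C ((1-l) z + l x) ≤ (1-l) r + l ρ = 1`. So the image of `{far C ≤ ρ}` under `x ↦ (1-l) z + l x`, of volume `l^n VV C ρ`, is contained in `{far C ≤ 1}`:
`VV C ρ ≤ l^(-n) VV C 1`, `l⁻¹ = 1 + (ρ-1)/(1-r) ≤ exp(4 (ρ-1))` as `1/(1-r) ≤ 4`. -/
def GRO_stmt : Prop := ∀ (n : ℕ) (C : Set (E n)) (ρ : ℝ), ConstWidth C 1 → 1 ≤ ρ →
  VV C ρ ≤ ENNReal.ofReal (Real.exp (4 * n * (ρ - 1))) * VV C 1

/-- **SLP** (medium, 110 lines; VON, LGC, GRO). A supporting line for `log VV` at `1`. Proof. `v ρ = (VV C ρ).toReal`, monotone, `v 1 > 0`. For `ρ > 1` let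
`s ρ = log (v ρ/v 1)/(ρ - 1) ∈ [0, 4 n]` (GRO) and `a = sup_(ρ>1) s ρ`. For `ρ ≥ 1` the inequality is clear. For `0 ≤ ρ < 1` with `v ρ > 0` and `σ > 1`: LGC with
`l = (σ-1)/(σ-ρ)` (`l ρ + (1-l) σ = 1`) gives `(σ-1) log v ρ + (1-ρ) log v σ ≤ (σ-ρ) log v 1`, i.e. `s σ ≤ (log v 1 - log v ρ)/(1-ρ)`. Supremum over `σ`. -/
def SLP_stmt : Prop := ∀ (n : ℕ) (C : Set (E n)), ConstWidth C 1 → ∃ a : ℝ, 0 ≤ a ∧ a ≤ 4 * n ∧
  ∀ ρ : ℝ, 0 ≤ ρ → VV C ρ ≤ ENNReal.ofReal (Real.exp (a * (ρ - 1))) * VV C 1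

/-- **LAY** (medium, 80 lines; FAR). Layer cake. Proof. For `r ≥ 0`: `exp (t (1 - r²)) = ∫_(ρ > r) 2 t ρ exp (t (1 - ρ²)) dρ` (antiderivative). Insert
`r = far C x ≥ 0` and exchange the integrals (Tonelli, `lintegral_lintegral_swap`); `{x | far C x < ρ}` and `{x | far C x ≤ ρ}`: here only `≤` is needed. -/
def LAY_stmt : Prop := ∀ (n : ℕ) (C : Set (E n)) (t : ℝ), IsCompact C → C.Nonempty → 0 < t →
  II C t ≤ ∫⁻ ρ in Ioi (0 : ℝ), ENNReal.ofReal (2 * t * ρ * Real.exp (t * (1 - ρ ^ 2))) * VV C ρ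

/-- **GAU** (medium, 80 lines). Proof. `t (1 - ρ²) + 2 t (ρ - 1) = - t (ρ - 1)²`; `ρ ≤ |ρ - 1| + 1`; `∫ |s| exp(-t s²) = 1/t`, `∫ exp (-t s²) = √(π/t)`
(`integral_gaussian`); so the first integral is `≤ 2 t (1/t + √(π/t)) = 2 + 2 √(π t)`. The second one is `e ≤ 3`. -/
def GAU_stmt : Prop := (∀ t : ℝ, 0 < t →
    ∫⁻ ρ in Ioi (0 : ℝ), ENNReal.ofReal (2 * t * ρ * Real.exp (t * (1 - ρ ^ 2)) *
      Real.exp (2 * t * (ρ - 1))) ≤ ENNReal.ofReal (2 + 2 * √(Real.pi * t))) ∧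
  ∫⁻ ρ in Ioi (0 : ℝ), ENNReal.ofReal (2 * 1 * ρ * Real.exp (1 * (1 - ρ ^ 2))) ≤ ENNReal.ofReal 3

/-- **TST** (short, 60 lines; VON, SLP, LAY, GAU). The good parameter. Proof. `a` from SLP. If `a > 0`: `t = a/2 ≤ 2n`; LAY, SLP, GAU:
`II C t ≤ (2 + 2 √(π t)) VV C 1`, `2 + 2 √(2 π n) ≤ 8 √n` (`n ≥ 1`, `π ≤ 3.2`), `VV C 1 = volume C`. If `a = 0`: `VV C ρ ≤ VV C 1` for all `ρ ≥ 0`, `t = 1 ≤ 2n`, second
part of GAU, `3 ≤ 8 √n`. -/
def TST_stmt : Prop := ∀ (n : ℕ) (C : Set (E n)), 1 ≤ n → ConstWidth C 1 → ∃ t : ℝ, 0 < t ∧ t ≤ 2 * n ∧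
  II C t ≤ ENNReal.ofReal (8 * √(n : ℝ)) * volume C

/-! ### Balls -/

/-- **BAL** (medium, 70 lines; PRJ, PIN, SCA). Proof. If `‖p1 x‖ ≤ √α r`, `‖p2 x‖ ≤ √β r` then `‖x‖² ≤ r²`. PIN with the indicators of the two balls, of radius `√α r`,
`√β r`; volume of a ball of radius `√α r`: `SCA` or `Measure.addHaar_closedBall_mul`. -/
def BAL_stmt : Prop := ∀ (d e : ℕ) (α β r : ℝ), 0 < α → 0 < β → α + β = 1 → 0 ≤ r →
  ENNReal.ofReal (√α ^ d * √β ^ e) *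
      (volume (Metric.closedBall (0 : E d) r) * volume (Metric.closedBall (0 : E e) r)) ≤
    volume (Metric.closedBall (0 : E (d + e)) r)

/-- **BAM** (short, 60 lines; BAL). Induction on `m` as in MFO. -/
def BAM_stmt : Prop := ∀ d m n : ℕ, 1 ≤ m → n = m * d →
  ENNReal.ofReal (1 / √(m : ℝ) ^ (m * d)) * volume (Metric.closedBall (0 : E d) (1 / 2)) ^ m ≤
    volume (Metric.closedBall (0 : E n) (1 / 2))

/-! ### The minimal volume ratio -/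

/-- **MVN** (short, 60 lines; J3). Normalisation. Proof. For a body `C` of width `w` the body `(1/w) C` has width `1` and volume `w^(-n) vol C`; the ball of radius
`w/2` has `w^n` times the volume of the ball of radius `1/2`. -/
def MVN_stmt : Prop := ∀ n : ℕ, mvol n =
  ⨅ C : {C : Set (E n) // ConstWidth C 1}, volume C.1 / volume (Metric.closedBall (0 : E n) (1 / 2))

/-- **MVB** (short, 50 lines). The ball of radius `1/2` has constant width `1`, so `mvol n ≤ 1`. Lower bound: `lower_mvol` in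
Pool/Agent/helper81/CW/Lower.lean (`√(3 + 2/(n+1)) ≥ √3`). -/
def MVB_stmt : Prop := ∀ n : ℕ, 1 ≤ n →
  mvol n ≤ 1 ∧ ENNReal.ofReal ((√3 - 1) ^ n) ≤ mvol n

/-- **TWO** (medium, 100 lines; PRD, VLE, VON, TST, BAL, MVN, MVB). Proof. Let `C₁`, `C₂` have width `1`, `t₁`, `t₂` from TST, `T = t₁ + t₂`, `α = t₁/T`, `β = t₂/T`. PRD:
`vol C ≤ II C T ≤ √α^d √β^e II C₁ t₁ II C₂ t₂ ≤ √α^d √β^e (8 √d vol C₁)(8 √e vol C₂)` (VLE, TST). Divide by BAL with `r = 1/2`. Infimum over `C₁` and over `C₂`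
(`ENNReal.mul_iInf_of_ne` or the like; all volumes are positive and finite). -/
def TWO_stmt : Prop := ∀ d e : ℕ, 1 ≤ d → 1 ≤ e →
  mvol (d + e) ≤ ENNReal.ofReal (64 * √(d : ℝ) * √(e : ℝ)) * (mvol d * mvol e)

/-- **POW** (medium, 100 lines; MFO, VLE, VON, TST, BAM, MVN). Proof. `C` of width `1`, `t` from TST, `C'` from MFO: `vol C' ≤ II C' (m t) ≤ (II C t)^m/√m^(md) ≤
(8 √d vol C)^m/√m^(md)`. Divide by BAM: `mvol (m d) ≤ (8 √d vol C/vol ball)^m`. Take `m`-th roots and the infimum over `C`. -/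
def POW_stmt : Prop := ∀ d m : ℕ, 1 ≤ d → 1 ≤ m →
  mvol (m * d) ≤ (ENNReal.ofReal (8 * √(d : ℝ)) * mvol d) ^ m

/-- **LIM** (medium, 120 lines, real analysis). Proof. `g d = (8 √d f d)^(1/d)`, `β = inf_(d ≥ 1) g d ≥ c` (as `g d ≥ f(d)^(1/d) ≥ c`). `f n^(1/n) ≥ β/(8 √n)^(1/n)`, so the lower
limit is `≥ β`. Fix `d ≥ 1`. For `n > d` write `n = m d + r`, `1 ≤ r ≤ d`, `m ≥ 1`: `f n ≤ 64 √(m d) √r f(m d) f(r) ≤ 64 n (8 √d f d)^m`, and `m/n → 1/d`, so the upper limit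
of `f n^(1/n)` is `≤ g d`. -/
def LIM_stmt : Prop := ∀ (f : ℕ → ℝ) (c : ℝ), 0 < c → (∀ n, 1 ≤ n → 0 < f n ∧ f n ≤ 1 ∧ c ^ n ≤ f n) →
  (∀ d m : ℕ, 1 ≤ d → 1 ≤ m → f (m * d) ≤ (8 * √(d : ℝ) * f d) ^ m) →
  (∀ d e : ℕ, 1 ≤ d → 1 ≤ e → f (d + e) ≤ 64 * √(d : ℝ) * √(e : ℝ) * (f d * f e)) →
  ∃ β : ℝ, c ≤ β ∧ Tendsto (fun n : ℕ => f n ^ (1 / (n : ℝ))) atTop (𝓝 β) ∧
    ∀ d : ℕ, 1 ≤ d → β ^ d ≤ 8 * √(d : ℝ) * f d

/-- **CFIN** (short, 80 lines; MVB, TWO, POW, LIM). The theorem. Proof. `f n = (mvol n).toReal`, `c = √3 - 1`. `mvol n/(5(n+1)) ≤ tau n ≤ mvol n`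
(`lower_tau` in Pool/Agent/helper81/CW/Lower.lean), and `(5(n+1))^(1/n) → 1`; `β ≤ 0.9` from `upper_mvol` (same file). -/
def CFIN_stmt : Prop := ∃ β : ℝ, √3 - 1 ≤ β ∧ β ≤ 0.9 ∧
  Tendsto (fun n : ℕ => (tau n).toReal ^ (1 / (n : ℝ))) atTop (𝓝 β) ∧
  Tendsto (fun n : ℕ => (mvol n).toReal ^ (1 / (n : ℝ))) atTop (𝓝 β) ∧
  (∀ d : ℕ, 1 ≤ d → ENNReal.ofReal (β ^ d) ≤ ENNReal.ofReal (8 * √(d : ℝ)) * mvol d)

end Pool.Agent.CL
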