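import Mathlib
import Pool.Agent.helper71.CL.Spec

/-!
# Project cl (MP_447e26_gt): module GRO
-/

set_option autoImplicit false

open MeasureTheory Set Filter Topology
open scoped ENNReal
open Pool.Agent.helper81.CW

noncomputable section

namespace Pool.Agent.CL

theorem GRO71 (hFAR : FAR_stmt) (hJ1 : J1_stmt) (hJ2 : J2_stmt) : GRO_stmt := by
  intro n C ρ hC hρ
  have hne : C.Nonempty := hC.1
  have hc : IsCompact C := hC.2.1
  obtain ⟨hd, -, -⟩ := hJ2 n C 1 hC
  obtain ⟨z, R, hR0, hR, hz⟩ := hJ1 n C hc hne hd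
  have hR1 : R ≤ 3 / 4 := by nlinarith
  have hfz : far C z ≤ R := by
    obtain ⟨c, hcC, hcz⟩ := (hFAR n C hc hne z z).2.1
    rw [← hcz, norm_sub_rev]
    exact hz c hcC
  have h1R : 0 < 1 - R := by linarith
  have hρR : 0 < ρ - R := by linarith
  set l : ℝ := (1 - R) / (ρ - R) with hl
  have hl0 : 0 < l := div_pos h1R hρR
  have hl1 : l ≤ 1 := by rw [hl, div_le_one hρR]; linarith
  have hll : l * (ρ - R) = 1 - R := div_mul_cancel₀ _ hρR.ne'
  have hsub : AffineMap.homothety z l '' {x : E n | far C x ≤ ρ} ⊆ {x : E n | far C x ≤ 1} := by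
    rintro y ⟨x, hx, rfl⟩
    have hx' : far C x ≤ ρ := hx
    show far C (AffineMap.homothety z l x) ≤ 1
    have e1 : AffineMap.homothety z l x = l • x + (1 - l) • z := by
      rw [AffineMap.homothety_apply, vsub_eq_sub, vadd_eq_add, smul_sub, sub_smul, one_smul]
      abel
    rw [e1]
    have h1 := (hFAR n C hc hne x z).2.2.2 l (1 - l) hl0.le (by linarith) (by ring)
    nlinarith [mul_le_mul_of_nonneg_left hx' hl0.le,
      mul_le_mul_of_nonneg_left hfz (by linarith : (0 : ℝ) ≤ 1 - l)]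
  have hvol := measure_mono (μ := (volume : Measure (E n))) hsub
  rw [Measure.addHaar_image_homothety] at hvol
  have hfr : Module.finrank ℝ (E n) = n := by
    show Module.finrank ℝ (EuclideanSpace ℝ (Fin n)) = n
    simp
  rw [hfr, abs_of_pos (pow_pos hl0 n)] at hvol
  have hvol' : ENNReal.ofReal (l ^ n) * VV C ρ ≤ VV C 1 := hvol
  have e2 : l⁻¹ ^ n * l ^ n = 1 := by
    rw [← mul_pow, inv_mul_cancel₀ hl0.ne', one_pow]
  have h3 : l⁻¹ ≤ Real.exp (4 * (ρ - 1)) := by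
    have h4 : l⁻¹ ≤ 4 * (ρ - 1) + 1 := by
      rw [hl, inv_div, div_le_iff₀ h1R]
      nlinarith [mul_nonneg (sub_nonneg.2 hρ) (sub_nonneg.2 hR1)]
    exact h4.trans (Real.add_one_le_exp _)
  have h5 : l⁻¹ ^ n ≤ Real.exp (4 * n * (ρ - 1)) := by
    calc l⁻¹ ^ n ≤ Real.exp (4 * (ρ - 1)) ^ n := pow_le_pow_left₀ (inv_nonneg.2 hl0.le) h3 n
      _ = Real.exp (4 * n * (ρ - 1)) := by
        rw [← Real.exp_nat_mul]
        congr 1
        ring
  calc VV C ρ = ENNReal.ofReal (l⁻¹ ^ n) * (ENNReal.ofReal (l ^ n) * VV C ρ) := by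
        rw [← mul_assoc, ← ENNReal.ofReal_mul (pow_nonneg (inv_nonneg.2 hl0.le) n), e2,
          ENNReal.ofReal_one, one_mul]
    _ ≤ ENNReal.ofReal (Real.exp (4 * n * (ρ - 1))) * VV C 1 :=
        mul_le_mul' (ENNReal.ofReal_le_ofReal h5) hvol'

end Pool.Agent.CL
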