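import Pool.Agent.helper11.CW.J1
import Pool.Agent.helper4.CW.J2
import Pool.Agent.helper1.CW.J3
import Pool.Agent.helper12.CL.FAR
import Pool.Agent.helper62.CL.GAU
import Pool.Agent.helper71.CL.GRO71
import Pool.Agent.helper87.CL.LAY
import Pool.Agent.helper63.CL.LGC
import Pool.Agent.helper33.CL.LIM
import Pool.Agent.helper91.CL.MVB
import Pool.Agent.helper25.CL.MVN
import Pool.Agent.helper1.CL.NCN
import Pool.Agent.helper98.CL.MAE
import Pool.Agent.helper70.CL.PIN
import Pool.Agent.helper3.CL.PRJ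
import Pool.Agent.helper8.CL.BAL
import Pool.Agent.helper24.CL.BAM
import Pool.Agent.helper77.CL.KFA
import Pool.Agent.helper43.CL.SCA
import Pool.Agent.helper89.CL.PRD
import Pool.Agent.helper75.CL.MFO
import Pool.Agent.helper46.CL.VLE
import Pool.Agent.helper67.CL.VON
import Pool.Agent.helper71.CL.SLP71
import Pool.Agent.helper34.CL.TST
import Pool.Agent.helper30.CL.POW
import Pool.Agent.helper45.CL.TWO
import Pool.Agent.helper60.CL.CFIN

set_option autoImplicit false

open Pool.Agent.helper81.CW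

namespace Pool.Agent.CL

theorem all_FAR : FAR_stmt := FAR
theorem all_GAU : GAU_stmt := GAU
theorem all_GRO : GRO_stmt := GRO71 all_FAR J1 J2
theorem all_LAY : LAY_stmt := LAY all_FAR
theorem all_LGC : LGC_stmt := LGC all_FAR
theorem all_LIM : LIM_stmt := LIM
theorem all_MVB : MVB_stmt := MVB
theorem all_MVN : MVN_stmt := MVN J3
theorem all_NCN : NCN_stmt := NCN
theorem all_MAE : MAE_stmt := MAE all_NCN
theorem all_PIN : PIN_stmt := PIN
theorem all_PRJ : PRJ_stmt := PRJ
theorem all_BAL : BAL_stmt := BAL all_PRJ all_PIN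
theorem all_BAM : BAM_stmt := BAM all_BAL
theorem all_KFA : KFA_stmt := KFA all_FAR all_PRJ
theorem all_SCA : SCA_stmt := SCA
theorem all_PRD : PRD_stmt := PRD all_FAR all_MAE all_PIN all_SCA all_KFA J2
theorem all_MFO : MFO_stmt := MFO all_PRD
theorem all_VLE : VLE_stmt := VLE all_FAR J2
theorem all_VON : VON_stmt := VON all_FAR J1 J2
theorem all_SLP : SLP_stmt := SLP71 all_VON all_LGC all_GRO
theorem all_TST : TST_stmt := TST all_VON all_SLP all_LAY all_GAU
theorem all_POW : POW_stmt := POW all_MFO all_VLE all_TST all_BAM all_MVN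
theorem all_TWO : TWO_stmt := TWO all_PRD all_VLE all_VON all_TST all_BAL all_MVN all_MVB
theorem all_CFIN : CFIN_stmt := CFIN all_MVB all_TWO all_POW all_LIM

end Pool.Agent.CL
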