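import Pool.Agent.helper41.CL.SpecB

/-!
# MP_d9d598_co, project CL, row SH: the bounds are attained
-/

set_option autoImplicit false

namespace Pool.Agent.helper41.CL

open Finset

theorem SH_core (h4 : XC_stmt) (h5 : XG_stmt) (h6 : WE_stmt) (h7 : WA_stmt) (h9 : WC_stmt)
    (n k c : ℕ) (E : Finset (Finset ℕ)) (hGr : Gr (range n) E) (hkn : k ≤ n) (hc : n - k = c + 1)
    (hne : #(cov (range n) E c) ≠ 0)
    (htur : #E + (#(SimpleGraph.turanGraph n (k - 1)).edgeFinset + 1) = n.choose 2) :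
    #(cov (range n) E (c + 1)) ∈ counts n k := by
  obtain ⟨G, hG1, hG2, hG3⟩ := h5 n E hGr
  classical
  refine ⟨G, inferInstance, ?_, ?_, ?_⟩
  · have h1 := h7 n G
    omega
  · refine h6 n k G hkn ?_
    rw [hc]
    refine hG3 (c + 1) ?_
    refine h4 ℕ (range n) E c hne ?_
    rw [card_range]
    omega
  · rw [← (h9 n k G hkn).1, hc, hG2]

theorem SH (h1 : XP_stmt) (h2 : XQ_stmt) (h3 : XR_stmt) (h4 : XC_stmt) (h5 : XG_stmt)
    (h6 : WE_stmt) (h7 : WA_stmt) (h8 : WB_stmt) (h9 : WC_stmt) : SH_stmt := by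
  intro k n hk
  refine ⟨?_, ?_, ?_⟩
  · intro hkn hn
    obtain ⟨m, i, rfl, rfl⟩ : ∃ m i, n = 2 * m + 3 + i ∧ k = m + 1 + i :=
      ⟨n - k - 2, 2 * k - n + 1, by omega, by omega⟩
    obtain ⟨hGr, hE, -, hc1, hc2⟩ := h1 m i
    refine ⟨#(cov (range (2 * m + 3 + i)) (EP m) (m + 2)), ?_, ?_⟩
    · refine SH_core h4 h5 h6 h7 h9 (2 * m + 3 + i) (m + 1 + i) (m + 1) (EP m) hGr (by omega)
        (by omega) ?_ ?_
      · rw [hc1]
        positivity
      · have h := (h8 (2 * m + 3 + i) (m + 1 + i - 1) (by omega)).2.1 (by omega) (by omega)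
        rw [hE]
        omega
    · have e1 : 2 * m + 3 + i - (m + 1 + i) = m + 2 := by omega
      have e2 : 3 * (m + 1 + i) - (2 * m + 3 + i) + 6 = m + 2 * i + 6 := by omega
      rw [e1, e2]
      have e3 : 8 * #(cov (range (2 * m + 3 + i)) (EP m) (m + 2)) =
          4 * (2 * #(cov (range (2 * m + 3 + i)) (EP m) (m + 2))) := by ring
      rw [e3, hc2]
      ring
  · intro hk4 hn
    obtain ⟨m, rfl, rfl⟩ : ∃ m, n = 2 * m + 7 ∧ k = m + 4 := ⟨k - 4, by omega, by omega⟩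
    obtain ⟨hGr, hE, -, hc1, hc2⟩ := h2 m
    refine ⟨#(cov (range (2 * m + 7)) (EQ m) (m + 3)), ?_, ?_⟩
    · refine SH_core h4 h5 h6 h7 h9 (2 * m + 7) (m + 4) (m + 2) (EQ m) hGr (by omega)
        (by omega) ?_ ?_
      · rw [hc1]
        positivity
      · have h := (h8 (2 * m + 7) (m + 4 - 1) (by omega)).2.2 (by omega)
        rw [hE]
        omega
    · have e3 : 32 * #(cov (range (2 * m + 7)) (EQ m) (m + 3)) =
          16 * (2 * #(cov (range (2 * m + 7)) (EQ m) (m + 3))) := by ring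
      rw [e3, hc2]
      ring
  · rintro rfl rfl
    obtain ⟨hGr, hE, hc1, hc2⟩ := h3
    rw [← hc2]
    refine SH_core h4 h5 h6 h7 h9 5 3 1 _ hGr (by omega) (by omega) ?_ ?_
    · rw [hc1]
      omega
    · have h := (h8 5 (3 - 1) (by omega)).2.2 (by omega)
      rw [hE]
      omega

end Pool.Agent.helper41.CL
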