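import Pool.Agent.helper47.CL.SpecD

/-!
# MP_d9d598_co, project CL, row NP: components with at most three vertices
-/

set_option autoImplicit false

namespace Pool.Agent.helper41.CL

open Finset

theorem NP_img {α : Type} [DecidableEq α] (V X T : Finset α) (E : Finset (Finset α)) (k m : ℕ)
    (hTX : T ⊆ X) (hXV : X ⊆ V) (hT : ∀ e ∈ E, ¬ Disjoint e X → ¬ e ∩ X ⊆ T)
    (hm : m = k + #T) :
    #(ind (V \ X) (av E X) k) ≤ #((ind V E m).filter fun S => S ∩ X = T) := by
  have key : ∀ J ∈ ind (V \ X) (av E X) k,
      Disjoint J X ∧ J ⊆ V ∧ #J = k ∧ ∀ e ∈ av E X, ¬ e ⊆ J := by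
    intro J hJ
    obtain ⟨h1, h2⟩ := Finset.mem_filter.1 hJ
    obtain ⟨h3, h4⟩ := Finset.mem_powersetCard.1 h1
    refine ⟨?_, h3.trans Finset.sdiff_subset, h4, h2⟩
    exact Finset.disjoint_of_subset_left h3 Finset.sdiff_disjoint
  refine Finset.card_le_card_of_injOn (fun J => J ∪ T) ?_ ?_
  · intro J hJ
    obtain ⟨h1, h2, h3, h4⟩ := key J hJ
    have hJT : Disjoint J T := Finset.disjoint_of_subset_right hTX h1
    have hinter : (J ∪ T) ∩ X = T := by
      rw [Finset.union_inter_distrib_right, Finset.disjoint_iff_inter_eq_empty.1 h1,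
        Finset.empty_union, Finset.inter_eq_left.2 hTX]
    refine Finset.mem_coe.2 (Finset.mem_filter.2 ⟨Finset.mem_filter.2
      ⟨Finset.mem_powersetCard.2 ⟨Finset.union_subset h2 (hTX.trans hXV), ?_⟩, ?_⟩, hinter⟩)
    · show #(J ∪ T) = m
      rw [Finset.card_union_of_disjoint hJT, h3, hm]
    · intro e he hsub
      by_cases hd : Disjoint e X
      · refine h4 e (Finset.mem_filter.2 ⟨he, hd⟩) ?_
        intro z hz
        rcases Finset.mem_union.1 (hsub hz) with h | h
        · exact h
        · exact absurd (hTX h) (Finset.disjoint_left.1 hd hz)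
      · refine hT e he hd ?_
        intro z hz
        rw [← hinter]
        exact Finset.mem_inter.2 ⟨hsub (Finset.mem_inter.1 hz).1, (Finset.mem_inter.1 hz).2⟩
  · intro J hJ J' hJ' hEq
    have h1 := (key J hJ).1
    have h1' := (key J' hJ').1
    have hs : ∀ K : Finset α, Disjoint K X → (K ∪ T) \ X = K := by
      intro K hK
      ext z
      simp only [Finset.mem_sdiff, Finset.mem_union]
      constructor
      · rintro ⟨h | h, h'⟩
        · exact h
        · exact absurd (hTX h) h'
      · intro h
        exact ⟨Or.inl h, Finset.disjoint_left.1 hK h⟩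
    have hEq' : J ∪ T = J' ∪ T := hEq
    rw [← hs J h1, ← hs J' h1', hEq']

theorem NP_sum {α : Type} [DecidableEq α] (s : Finset (Finset α)) (X : Finset α)
    (t : Finset (Finset α)) : ∑ T ∈ t, #(s.filter fun S => S ∩ X = T) ≤ #s := by
  rw [Finset.sum_card_fiberwise_eq_card_filter]
  exact Finset.card_filter_le _ _

theorem NP_gr {α : Type} [DecidableEq α] {V X : Finset α} {E : Finset (Finset α)}
    (h : Gr V E) : Gr (V \ X) (av E X) := by
  intro e he
  obtain ⟨h1, h2⟩ := Finset.mem_filter.1 he
  exact ⟨Finset.subset_sdiff.2 ⟨(h e h1).1, h2⟩, (h e h1).2⟩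

theorem NP_out {α : Type} [DecidableEq α] {X : Finset α} {E : Finset (Finset α)}
    (hX : ∀ e ∈ E, ¬ Disjoint e X → e ⊆ X) (z : α) (hz : z ∉ X) :
    inc (av E X) z = inc E z := by
  ext e
  constructor
  · intro h
    obtain ⟨h1, h2⟩ := Finset.mem_filter.1 h
    exact Finset.mem_filter.2 ⟨(Finset.mem_filter.1 h1).1, h2⟩
  · intro h
    obtain ⟨h1, h2⟩ := Finset.mem_filter.1 h
    refine Finset.mem_filter.2 ⟨Finset.mem_filter.2 ⟨h1, ?_⟩, h2⟩
    by_contra hd
    exact hz (hX e h1 hd h2)

theorem NP_in {α : Type} [DecidableEq α] {X : Finset α} {E : Finset (Finset α)}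
    (z : α) (hz : z ∈ X) : inc (av E X) z = ∅ := by
  rw [Finset.eq_empty_iff_forall_notMem]
  intro e h
  obtain ⟨h1, h2⟩ := Finset.mem_filter.1 h
  exact Finset.disjoint_left.1 (Finset.mem_filter.1 h1).2 h2 hz

theorem NP_hyp {α : Type} [DecidableEq α] {X A : Finset α} {E : Finset (Finset α)}
    (hX : ∀ e ∈ E, ¬ Disjoint e X → e ⊆ X) (hdeg : ∀ x, #(inc E x) ≤ 2)
    (hTw : ∀ p a b, Tw E p a b → #(inc E a) = 1 ∧ #(inc E b) = 1)
    (hA : ∀ x, x ∈ A ↔ #(inc E x) = 2) :
    (∀ x, #(inc (av E X) x) ≤ 2) ∧
    (∀ p a b, Tw (av E X) p a b → #(inc (av E X) a) = 1 ∧ #(inc (av E X) b) = 1) ∧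
    (∀ x, x ∈ A \ X ↔ #(inc (av E X) x) = 2) := by
  refine ⟨?_, ?_, ?_⟩
  · intro x
    by_cases hx : x ∈ X
    · rw [NP_in x hx, Finset.card_empty]
      omega
    · rw [NP_out hX x hx]
      exact hdeg x
  · rintro p a b ⟨h1, h2, h3, h4, h5, h6⟩
    have d4 := (Finset.mem_filter.1 h4).2
    have d5 := (Finset.mem_filter.1 h5).2
    have hp : p ∉ X := Finset.disjoint_left.1 d4 (Finset.mem_insert_self _ _)
    have ha : a ∉ X := Finset.disjoint_left.1 d4
      (Finset.mem_insert_of_mem (Finset.mem_singleton_self _))
    have hb : b ∉ X := Finset.disjoint_left.1 d5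
      (Finset.mem_insert_of_mem (Finset.mem_singleton_self _))
    have hT : Tw E p a b := by
      refine ⟨h1, h2, h3, (Finset.mem_filter.1 h4).1, (Finset.mem_filter.1 h5).1, ?_⟩
      intro e he hpe
      have h7 : e ∈ inc E p := Finset.mem_filter.2 ⟨he, hpe⟩
      rw [← NP_out hX p hp] at h7
      exact h6 e (Finset.mem_filter.1 h7).1 hpe
    rw [NP_out hX a ha, NP_out hX b hb]
    exact hTw p a b hT
  · intro x
    rw [Finset.mem_sdiff]
    by_cases hx : x ∈ X
    · rw [NP_in x hx, Finset.card_empty]
      constructor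
      · rintro ⟨-, h⟩
        exact absurd hx h
      · intro h
        omega
    · rw [NP_out hX x hx, ← hA x]
      exact ⟨fun h => h.1, fun h => ⟨h, hx⟩⟩

theorem NP_one {α : Type} [DecidableEq α] {E : Finset (Finset α)} {a : α} {e f : Finset α}
    (h : #(inc E a) = 1) (he : e ∈ E) (hae : a ∈ e) (hf : f ∈ E) (haf : a ∈ f) : e = f := by
  obtain ⟨g, hg⟩ := Finset.card_eq_one.1 h
  have h1 : e ∈ inc E a := Finset.mem_filter.2 ⟨he, hae⟩
  have h2 : f ∈ inc E a := Finset.mem_filter.2 ⟨hf, haf⟩
  rw [hg, Finset.mem_singleton] at h1 h2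
  rw [h1, h2]

theorem NP_pair {α : Type} [DecidableEq α] {e : Finset α} (he : #e = 2) {x : α} (hx : x ∈ e) :
    ∃ y, x ≠ y ∧ e = {x, y} := by
  obtain ⟨u, v, huv, rfl⟩ := Finset.card_eq_two.1 he
  rcases Finset.mem_insert.1 hx with h | h
  · subst h
    exact ⟨v, huv, rfl⟩
  · rw [Finset.mem_singleton] at h
    subst h
    exact ⟨u, huv.symm, Finset.pair_comm _ _⟩

/-- The three kinds of components. -/
theorem NP_cases {α : Type} [DecidableEq α] {V : Finset α} {E : Finset (Finset α)}
    (hGr : Gr V E) (hdeg : ∀ x, #(inc E x) ≤ 2) (x : α) :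
    (∀ e ∈ E, x ∉ e) ∨ (∃ u v, Kt E u v) ∨ ∃ p a b, Tw E p a b := by
  have two : ∀ p, #(inc E p) = 2 → ∃ a b, Tw E p a b := by
    intro p hp
    obtain ⟨e, f, hef, hE⟩ := Finset.card_eq_two.1 hp
    have he : e ∈ inc E p := by rw [hE]; exact Finset.mem_insert_self _ _
    have hf : f ∈ inc E p := by
      rw [hE]; exact Finset.mem_insert_of_mem (Finset.mem_singleton_self _)
    obtain ⟨he1, he2⟩ := Finset.mem_filter.1 he
    obtain ⟨hf1, hf2⟩ := Finset.mem_filter.1 hf
    obtain ⟨a, hpa, rfl⟩ := NP_pair (hGr e he1).2 he2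
    obtain ⟨b, hpb, rfl⟩ := NP_pair (hGr f hf1).2 hf2
    refine ⟨a, b, ?_, hpa, hpb, he1, hf1, ?_⟩
    · rintro rfl
      exact hef rfl
    · intro g hg hpg
      have : g ∈ inc E p := Finset.mem_filter.2 ⟨hg, hpg⟩
      rw [hE, Finset.mem_insert, Finset.mem_singleton] at this
      exact this
  by_cases hiso : ∀ e ∈ E, x ∉ e
  · exact Or.inl hiso
  · right
    push Not at hiso
    obtain ⟨e, he, hxe⟩ := hiso
    obtain ⟨y, hxy, rfl⟩ := NP_pair (hGr e he).2 hxe
    have hye : y ∈ ({x, y} : Finset α) := Finset.mem_insert_of_mem (Finset.mem_singleton_self _)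
    by_cases hx2 : #(inc E x) = 2
    · right
      exact ⟨x, two x hx2⟩
    · by_cases hy2 : #(inc E y) = 2
      · right
        exact ⟨y, two y hy2⟩
      · left
        have px : 0 < #(inc E x) := Finset.card_pos.2 ⟨_, Finset.mem_filter.2 ⟨he, hxe⟩⟩
        have py : 0 < #(inc E y) := Finset.card_pos.2 ⟨_, Finset.mem_filter.2 ⟨he, hye⟩⟩
        have dx := hdeg x
        have dy := hdeg y
        refine ⟨x, y, hxy, he, ?_⟩
        rintro f hf (h | h)
        · exact NP_one (by omega) hf h he hxe
        · exact NP_one (by omega) hf h he hye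

theorem NP_main {α : Type} [DecidableEq α] (n : ℕ) : ∀ (V A : Finset α)
    (E : Finset (Finset α)), #V = n → Gr V E → (∀ x, #(inc E x) ≤ 2) →
    (∀ p a b, Tw E p a b → #(inc E a) = 1 ∧ #(inc E b) = 1) →
    (∀ x, x ∈ A ↔ #(inc E x) = 2) →
    #E ≤ #V ∧ 2 * #A ≤ #E ∧ ∀ ρ ≤ #A,
      (#A).choose ρ * 3 ^ (#A - ρ) * 2 ^ (#E - 2 * #A) ≤ #(ind V E (#V - #E + ρ)) := by
  induction n using Nat.strong_induction_on with
  | _ n ih =>
  intro V A E hn hGr hdeg hTw hA
  rcases Finset.eq_empty_or_nonempty V with hV | ⟨x, hx⟩
  · subst hV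
    have hE : E = ∅ := by
      rw [Finset.eq_empty_iff_forall_notMem]
      intro e he
      have h1 := hGr e he
      have h2 : e = ∅ := Finset.subset_empty.1 h1.1
      rw [h2, Finset.card_empty] at h1
      omega
    subst hE
    have hA0 : A = ∅ := by
      rw [Finset.eq_empty_iff_forall_notMem]
      intro z hz
      have h1 := (hA z).1 hz
      rw [inc, Finset.filter_empty, Finset.card_empty] at h1
      omega
    subst hA0
    refine ⟨le_refl _, by simp, ?_⟩
    intro ρ hρ
    rw [Finset.card_empty] at hρ
    obtain rfl : ρ = 0 := by omega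
    simp [ind]
  · rcases NP_cases hGr hdeg x with hiso | ⟨u, v, hK⟩ | ⟨p, a, b, hT⟩
    · -- an isolated vertex
      have hX : ∀ e ∈ E, ¬ Disjoint e ({x} : Finset α) → e ⊆ {x} := by
        intro e he hd
        exact absurd (Finset.disjoint_singleton_right.2 (hiso e he)) hd
      have hav : av E {x} = E := by
        refine Finset.filter_true_of_mem (fun e he => ?_)
        exact Finset.disjoint_singleton_right.2 (hiso e he)
      obtain ⟨g1, g2, g3⟩ := NP_hyp hX hdeg hTw hA
      have hcV : #(V \ {x}) + 1 = #V := by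
        rw [Finset.sdiff_singleton_eq_erase]
        exact Finset.card_erase_add_one hx
      have hAx : A \ {x} = A := by
        rw [Finset.sdiff_singleton_eq_erase]
        refine Finset.erase_eq_of_notMem (fun h => ?_)
        have h1 := (hA x).1 h
        have h2 : inc E x = ∅ := by
          rw [Finset.eq_empty_iff_forall_notMem]
          intro e he
          exact hiso e (Finset.mem_filter.1 he).1 (Finset.mem_filter.1 he).2
        rw [h2, Finset.card_empty] at h1
        omega
      have IH := ih _ (by omega) (V \ {x}) (A \ {x}) (av E {x}) rfl (NP_gr hGr) g1 g2 g3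
      rw [hAx, hav] at IH
      obtain ⟨i1, i2, i3⟩ := IH
      refine ⟨by omega, i2, fun ρ hρ => ?_⟩
      refine (i3 ρ hρ).trans ?_
      have him := NP_img V {x} {x} E (#(V \ {x}) - #E + ρ) (#V - #E + ρ) (Finset.Subset.refl _)
        (Finset.singleton_subset_iff.2 hx) (fun e he hd => absurd
          (Finset.disjoint_singleton_right.2 (hiso e he)) hd) (by
            rw [Finset.card_singleton]
            omega)
      rw [hav] at him
      exact him.trans (Finset.card_filter_le _ _)
    · -- a component with one edge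
      obtain ⟨huv, huE, hall⟩ := hK
      have hX : ∀ e ∈ E, ¬ Disjoint e ({u, v} : Finset α) → e = {u, v} := by
        intro e he hd
        rw [Finset.not_disjoint_iff] at hd
        obtain ⟨z, hz1, hz2⟩ := hd
        rw [Finset.mem_insert, Finset.mem_singleton] at hz2
        rcases hz2 with rfl | rfl
        · exact hall e he (Or.inl hz1)
        · exact hall e he (Or.inr hz1)
      have hX' : ∀ e ∈ E, ¬ Disjoint e ({u, v} : Finset α) → e ⊆ {u, v} := by
        intro e he hd
        rw [hX e he hd]
      have hne : ¬ Disjoint ({u, v} : Finset α) {u, v} := by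
        rw [Finset.not_disjoint_iff]
        exact ⟨u, Finset.mem_insert_self _ _, Finset.mem_insert_self _ _⟩
      have hav : av E {u, v} = E.erase {u, v} := by
        ext e
        rw [av, Finset.mem_filter, Finset.mem_erase]
        constructor
        · rintro ⟨h1, h2⟩
          refine ⟨?_, h1⟩
          rintro rfl
          exact hne h2
        · rintro ⟨h1, h2⟩
          refine ⟨h2, ?_⟩
          by_contra hd
          exact h1 (hX e h2 hd)
      have hcE : #(av E {u, v}) + 1 = #E := by
        rw [hav]
        exact Finset.card_erase_add_one huE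
      have hXV : ({u, v} : Finset α) ⊆ V := (hGr _ huE).1
      have hcV : #(V \ {u, v}) + 2 = #V := by
        rw [Finset.card_sdiff_of_subset hXV, Finset.card_pair huv]
        have := Finset.card_le_card hXV
        rw [Finset.card_pair huv] at this
        omega
      obtain ⟨g1, g2, g3⟩ := NP_hyp hX' hdeg hTw hA
      have hnotA : ∀ z ∈ ({u, v} : Finset α), z ∉ A := by
        intro z hz hzA
        have h1 := (hA z).1 hzA
        have h2 : inc E z ⊆ {{u, v}} := by
          intro e he
          obtain ⟨he1, he2⟩ := Finset.mem_filter.1 he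
          rw [Finset.mem_singleton]
          exact hX e he1 (Finset.not_disjoint_iff.2 ⟨z, he2, hz⟩)
        have h3 := Finset.card_le_card h2
        rw [Finset.card_singleton] at h3
        omega
      have hAx : A \ {u, v} = A := by
        refine Finset.sdiff_eq_self_of_disjoint ?_
        rw [Finset.disjoint_left]
        intro z hz hz'
        exact hnotA z hz' hz
      have IH := ih _ (by omega) (V \ {u, v}) (A \ {u, v}) (av E {u, v}) rfl (NP_gr hGr) g1 g2 g3
      rw [hAx] at IH
      obtain ⟨i1, i2, i3⟩ := IH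
      refine ⟨by omega, by omega, fun ρ hρ => ?_⟩
      have j3 := i3 ρ hρ
      have hsing : ∀ z ∈ ({u, v} : Finset α),
          #(ind (V \ {u, v}) (av E {u, v}) (#(V \ {u, v}) - #(av E {u, v}) + ρ)) ≤
          #((ind V E (#V - #E + ρ)).filter fun S => S ∩ {u, v} = {z}) := by
        intro z hz
        refine NP_img V {u, v} {z} E _ _ (Finset.singleton_subset_iff.2 hz) hXV ?_ ?_
        · intro e he hd hs
          rw [hX e he hd, Finset.inter_self] at hs
          have h1 := hs (Finset.mem_insert_self u {v})
          have h2 := hs (Finset.mem_insert_of_mem (Finset.mem_singleton_self v))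
          rw [Finset.mem_singleton] at h1 h2
          exact huv (h1.trans h2.symm)
        · rw [Finset.card_singleton]
          omega
      have s1 := hsing u (Finset.mem_insert_self _ _)
      have s2 := hsing v (Finset.mem_insert_of_mem (Finset.mem_singleton_self _))
      have hs := NP_sum (ind V E (#V - #E + ρ)) {u, v} {{u}, {v}}
      rw [Finset.sum_pair (fun h => huv (Finset.singleton_inj.1 h))] at hs
      have e1 : #E - 2 * #A = (#(av E {u, v}) - 2 * #A) + 1 := by omega
      rw [e1, pow_succ]
      calc (#A).choose ρ * 3 ^ (#A - ρ) * (2 ^ (#(av E {u, v}) - 2 * #A) * 2)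
          = 2 * ((#A).choose ρ * 3 ^ (#A - ρ) * 2 ^ (#(av E {u, v}) - 2 * #A)) := by ring
        _ ≤ 2 * #(ind (V \ {u, v}) (av E {u, v}) (#(V \ {u, v}) - #(av E {u, v}) + ρ)) :=
            Nat.mul_le_mul_left 2 j3
        _ ≤ _ := by omega
    · -- a path with three vertices
      obtain ⟨ha1, hb1⟩ := hTw p a b hT
      obtain ⟨hab, hpa, hpb, hpaE, hpbE, hall⟩ := hT
      have hX : ∀ e ∈ E, ¬ Disjoint e ({p, a, b} : Finset α) → e = {p, a} ∨ e = {p, b} := by
        intro e he hd
        rw [Finset.not_disjoint_iff] at hd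
        obtain ⟨z, hz1, hz2⟩ := hd
        rw [Finset.mem_insert, Finset.mem_insert, Finset.mem_singleton] at hz2
        rcases hz2 with rfl | rfl | rfl
        · exact hall e he hz1
        · left
          exact NP_one ha1 he hz1 hpaE (Finset.mem_insert_of_mem (Finset.mem_singleton_self _))
        · right
          exact NP_one hb1 he hz1 hpbE (Finset.mem_insert_of_mem (Finset.mem_singleton_self _))
      have hsa : ({p, a} : Finset α) ⊆ {p, a, b} := by
        intro z hz
        rw [Finset.mem_insert, Finset.mem_singleton] at hz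
        rw [Finset.mem_insert, Finset.mem_insert, Finset.mem_singleton]
        tauto
      have hsb : ({p, b} : Finset α) ⊆ {p, a, b} := by
        intro z hz
        rw [Finset.mem_insert, Finset.mem_singleton] at hz
        rw [Finset.mem_insert, Finset.mem_insert, Finset.mem_singleton]
        tauto
      have hX' : ∀ e ∈ E, ¬ Disjoint e ({p, a, b} : Finset α) → e ⊆ {p, a, b} := by
        intro e he hd
        rcases hX e he hd with h | h
        · rw [h]; exact hsa
        · rw [h]; exact hsb
      have hne : ({p, a} : Finset α) ≠ {p, b} := by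
        intro h
        have : a ∈ ({p, b} : Finset α) := by
          rw [← h]
          exact Finset.mem_insert_of_mem (Finset.mem_singleton_self _)
        rw [Finset.mem_insert, Finset.mem_singleton] at this
        rcases this with h' | h'
        · exact hpa h'.symm
        · exact hab h'
      have hav : av E {p, a, b} = (E.erase {p, a}).erase {p, b} := by
        ext e
        rw [av, Finset.mem_filter, Finset.mem_erase, Finset.mem_erase]
        constructor
        · rintro ⟨h1, h2⟩
          have hp : p ∉ e := fun h => Finset.disjoint_left.1 h2 h (Finset.mem_insert_self _ _)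
          refine ⟨?_, ?_, h1⟩
          · rintro rfl
            exact hp (Finset.mem_insert_self _ _)
          · rintro rfl
            exact hp (Finset.mem_insert_self _ _)
        · rintro ⟨h1, h2, h3⟩
          refine ⟨h3, ?_⟩
          by_contra hd
          rcases hX e h3 hd with h | h
          · exact h2 h
          · exact h1 h
      have hcE : #(av E {p, a, b}) + 2 = #E := by
        rw [hav]
        have e1 := Finset.card_erase_add_one hpaE
        have e2 := Finset.card_erase_add_one (Finset.mem_erase.2 ⟨hne.symm, hpbE⟩)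
        omega
      have hXV : ({p, a, b} : Finset α) ⊆ V := by
        intro z hz
        rw [Finset.mem_insert, Finset.mem_insert, Finset.mem_singleton] at hz
        rcases hz with rfl | rfl | rfl
        · exact (hGr _ hpaE).1 (Finset.mem_insert_self _ _)
        · exact (hGr _ hpaE).1 (Finset.mem_insert_of_mem (Finset.mem_singleton_self _))
        · exact (hGr _ hpbE).1 (Finset.mem_insert_of_mem (Finset.mem_singleton_self _))
      have hcX : #({p, a, b} : Finset α) = 3 := Finset.card_eq_three.2 ⟨p, a, b, hpa, hpb, hab, rfl⟩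
      have hcV : #(V \ {p, a, b}) + 3 = #V := by
        rw [Finset.card_sdiff_of_subset hXV, hcX]
        have := Finset.card_le_card hXV
        rw [hcX] at this
        omega
      obtain ⟨g1, g2, g3⟩ := NP_hyp hX' hdeg hTw hA
      have hpA : p ∈ A := by
        rw [hA]
        have hd := hdeg p
        have h2 : ({{p, a}, {p, b}} : Finset (Finset α)) ⊆ inc E p := by
          intro e he
          rw [Finset.mem_insert, Finset.mem_singleton] at he
          rcases he with rfl | rfl
          · exact Finset.mem_filter.2 ⟨hpaE, Finset.mem_insert_self _ _⟩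
          · exact Finset.mem_filter.2 ⟨hpbE, Finset.mem_insert_self _ _⟩
        have h3 := Finset.card_le_card h2
        rw [Finset.card_pair hne] at h3
        omega
      have haA : a ∉ A := by
        rw [hA]
        omega
      have hbA : b ∉ A := by
        rw [hA]
        omega
      have hAx : A \ {p, a, b} = A.erase p := by
        ext z
        rw [Finset.mem_sdiff, Finset.mem_erase, Finset.mem_insert, Finset.mem_insert,
          Finset.mem_singleton]
        constructor
        · rintro ⟨h1, h2⟩
          exact ⟨fun h => h2 (Or.inl h), h1⟩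
        · rintro ⟨h1, h2⟩
          refine ⟨h2, ?_⟩
          rintro (rfl | rfl | rfl)
          · exact h1 rfl
          · exact haA h2
          · exact hbA h2
      have hcA : #(A \ {p, a, b}) + 1 = #A := by
        rw [hAx]
        exact Finset.card_erase_add_one hpA
      have IH := ih _ (by omega) (V \ {p, a, b}) (A \ {p, a, b}) (av E {p, a, b}) rfl (NP_gr hGr)
        g1 g2 g3
      obtain ⟨i1, i2, i3⟩ := IH
      generalize hI : (fun k => #(ind (V \ {p, a, b}) (av E {p, a, b}) k)) = I at *
      have hIk : ∀ k, #(ind (V \ {p, a, b}) (av E {p, a, b}) k) = I k := fun k => by rw [← hI]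
      have hz : ∀ T : Finset α, T ⊆ {p, a, b} → (p ∉ T ∨ (a ∉ T ∧ b ∉ T)) → ∀ k m : ℕ,
          m = k + #T → I k ≤ #((ind V E m).filter fun S => S ∩ {p, a, b} = T) := by
        intro T hTX hT k m hm
        rw [← hIk]
        refine NP_img V {p, a, b} T E k m hTX hXV ?_ hm
        intro e he hd hs
        rcases hX e he hd with h | h
        · rw [h, Finset.inter_eq_left.2 hsa] at hs
          have h1 := hs (Finset.mem_insert_self p {a})
          have h2 := hs (Finset.mem_insert_of_mem (Finset.mem_singleton_self a))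
          tauto
        · rw [h, Finset.inter_eq_left.2 hsb] at hs
          have h1 := hs (Finset.mem_insert_self p {b})
          have h2 := hs (Finset.mem_insert_of_mem (Finset.mem_singleton_self b))
          tauto
      have hsp : ({p} : Finset α) ⊆ {p, a, b} :=
        Finset.singleton_subset_iff.2 (Finset.mem_insert_self _ _)
      have hsa' : ({a} : Finset α) ⊆ {p, a, b} :=
        Finset.singleton_subset_iff.2 (Finset.mem_insert_of_mem (Finset.mem_insert_self _ _))
      have hsb' : ({b} : Finset α) ⊆ {p, a, b} :=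
        Finset.singleton_subset_iff.2 (Finset.mem_insert_of_mem
          (Finset.mem_insert_of_mem (Finset.mem_singleton_self _)))
      have hsab : ({a, b} : Finset α) ⊆ {p, a, b} := Finset.subset_insert _ _
      have n1 : ({a} : Finset α) ≠ {b} := fun h => hab (Finset.singleton_inj.1 h)
      have n2 : ({p} : Finset α) ∉ ({{a}, {b}} : Finset (Finset α)) := by
        rw [Finset.mem_insert, Finset.mem_singleton]
        rintro (h | h)
        · exact hpa (Finset.singleton_inj.1 h)
        · exact hpb (Finset.singleton_inj.1 h)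
      have n3 : ({a, b} : Finset α) ∉ ({{p}, {a}, {b}} : Finset (Finset α)) := by
        rw [Finset.mem_insert, Finset.mem_insert, Finset.mem_singleton]
        have hc : #({a, b} : Finset α) = 2 := Finset.card_pair hab
        rintro (h | h | h) <;> rw [h, Finset.card_singleton] at hc <;> omega
      have three : ∀ k, 3 * I k ≤ #(ind V E (k + 1)) := by
        intro k
        have s0 := hz {p} hsp (Or.inr ⟨by simpa using fun h => hpa h.symm,
          by simpa using fun h => hpb h.symm⟩) k (k + 1) (by rw [Finset.card_singleton])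
        have s1 := hz {a} hsa' (Or.inl (by simpa using hpa)) k (k + 1)
          (by rw [Finset.card_singleton])
        have s2 := hz {b} hsb' (Or.inl (by simpa using hpb)) k (k + 1)
          (by rw [Finset.card_singleton])
        have hs := NP_sum (ind V E (k + 1)) {p, a, b} {{p}, {a}, {b}}
        rw [Finset.sum_insert n2, Finset.sum_pair n1] at hs
        omega
      have four : ∀ k, 3 * I (k + 1) + I k ≤ #(ind V E (k + 2)) := by
        intro k
        have s0 := hz {p} hsp (Or.inr ⟨by simpa using fun h => hpa h.symm,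
          by simpa using fun h => hpb h.symm⟩) (k + 1) (k + 2) (by rw [Finset.card_singleton])
        have s1 := hz {a} hsa' (Or.inl (by simpa using hpa)) (k + 1) (k + 2)
          (by rw [Finset.card_singleton])
        have s2 := hz {b} hsb' (Or.inl (by simpa using hpb)) (k + 1) (k + 2)
          (by rw [Finset.card_singleton])
        have s3 := hz {a, b} hsab (Or.inl (by
          rw [Finset.mem_insert, Finset.mem_singleton]
          rintro (h | h)
          · exact hpa h
          · exact hpb h)) k (k + 2) (by rw [Finset.card_pair hab])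
        have hs := NP_sum (ind V E (k + 2)) {p, a, b} {{a, b}, {p}, {a}, {b}}
        rw [Finset.sum_insert n3, Finset.sum_insert n2, Finset.sum_pair n1] at hs
        omega
      refine ⟨by omega, by omega, fun ρ hρ => ?_⟩
      obtain ⟨a', ha'⟩ : ∃ a', a' = #(A \ {p, a, b}) := ⟨_, rfl⟩
      obtain ⟨m', hm'⟩ : ∃ m', m' = #(V \ {p, a, b}) - #(av E {p, a, b}) := ⟨_, rfl⟩
      have i3' : ∀ σ ≤ a', a'.choose σ * 3 ^ (a' - σ) * 2 ^ (#E - 2 * #A) ≤ I (m' + σ) := by
        intro σ hσ
        have h1 := i3 σ (by omega)
        rw [hIk, ← ha', ← hm'] at h1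
        have e1 : #(av E {p, a, b}) - 2 * a' = #E - 2 * #A := by omega
        rw [e1] at h1
        exact h1
      have hA' : #A = a' + 1 := by omega
      have hm : #V - #E = m' + 1 := by omega
      rw [hA', hm]
      rw [hA'] at i3' hρ
      rcases Nat.eq_zero_or_pos ρ with h0 | h0
      · subst h0
        have h1 := i3' 0 (Nat.zero_le _)
        have h2 := three m'
        rw [Nat.choose_zero_right, one_mul, Nat.sub_zero] at h1 ⊢
        rw [Nat.add_zero] at h1 ⊢
        calc 3 ^ (a' + 1) * 2 ^ (#E - 2 * (a' + 1))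
            = 3 * (3 ^ a' * 2 ^ (#E - 2 * (a' + 1))) := by ring
          _ ≤ 3 * I m' := Nat.mul_le_mul_left 3 h1
          _ ≤ _ := h2
      · obtain ⟨σ, rfl⟩ : ∃ σ, ρ = σ + 1 := ⟨ρ - 1, by omega⟩
        have h1 := i3' σ (by omega)
        have h2 := four (m' + σ)
        have e2 : m' + 1 + (σ + 1) = m' + σ + 2 := by omega
        have e3 : a' + 1 - (σ + 1) = a' - σ := by omega
        rw [e2, e3, Nat.choose_succ_succ]
        refine le_trans ?_ h2
        rcases Nat.lt_or_ge σ a' with h3 | h3
        · have h4 := i3' (σ + 1) (by omega)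
          have e4 : a' - σ = a' - (σ + 1) + 1 := by omega
          have e5 : m' + (σ + 1) = m' + σ + 1 := by omega
          rw [e5] at h4
          have e6 : (a'.choose σ + a'.choose (σ + 1)) * 3 ^ (a' - σ) * 2 ^ (#E - 2 * (a' + 1)) =
              3 * (a'.choose (σ + 1) * 3 ^ (a' - (σ + 1)) * 2 ^ (#E - 2 * (a' + 1))) +
              a'.choose σ * 3 ^ (a' - σ) * 2 ^ (#E - 2 * (a' + 1)) := by
            have e7 : 3 ^ (a' - σ) = 3 * 3 ^ (a' - (σ + 1)) := by
              rw [e4, pow_succ]
              ring
            rw [e7]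
            ring
          have e6' := e6
          show (a'.choose σ + a'.choose (σ + 1)) * 3 ^ (a' - σ) * 2 ^ (#E - 2 * (a' + 1)) ≤ _
          rw [e6']
          omega
        · have e7 : a'.choose (σ + 1) = 0 := Nat.choose_eq_zero_of_lt (by omega)
          show (a'.choose σ + a'.choose (σ + 1)) * 3 ^ (a' - σ) * 2 ^ (#E - 2 * (a' + 1)) ≤ _
          rw [e7, Nat.add_zero]
          omega

theorem NP (_h1 : ZK_stmt) : NP_stmt := by
  intro α _ V A E ρ hGr hdeg hTw hA hρ
  obtain ⟨h1, h2, h3⟩ := NP_main _ V A E rfl hGr hdeg hTw hA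
  exact ⟨h1, h2, h3 ρ hρ⟩

end Pool.Agent.helper41.CL
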